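import Mathlib
import Pool.Agent.WR4.Stmts

/-!
# Squad WR4, row DIS: the distribution functions
-/

set_option autoImplicit false

namespace Pool.Agent.WR4.H95

open Pool.Agent.WIR Pool.Agent.WR2 Pool.Agent.WR3 Pool.Agent.WR4
open scoped BigOperators ENNReal Topology
open Filter MeasureTheory

/-- the measure of the sublevel set at the level `m` -/
theorem dis_level (mea : MeaStmt) (uts : UtsStmt) (m : ℕ) (hm : 1 ≤ m) (s : ℝ) :
    MeasurableSet {x : ℤ_[3] | x ∈ U3 ∧ Wp m x ≤ s} ∧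
      (μ3 {x : ℤ_[3] | x ∈ U3 ∧ Wp m x ≤ s}).toReal = pr m s := by
  classical
  obtain ⟨-, hmea⟩ := mea
  obtain ⟨-, -, -, huts⟩ := uts
  obtain ⟨h1, h2⟩ := hmea m (fun z : ZMod (3 ^ m) => if IsUnit z ∧ W m z ≤ s then 1 else 0)
  have hset : {x : ℤ_[3] | x ∈ U3 ∧ Wp m x ≤ s} =
      (fun x : ℤ_[3] => (fun z : ZMod (3 ^ m) => if IsUnit z ∧ W m z ≤ s then (1 : ℝ≥0∞) else 0)
        (PadicInt.toZModPow m x)) ⁻¹' {1} := by
    ext x
    rw [Set.mem_preimage, Set.mem_singleton_iff]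
    change (x ∈ U3 ∧ Wp m x ≤ s) ↔ _
    rw [huts m x hm]
    unfold Wp
    by_cases h : IsUnit (PadicInt.toZModPow m x) ∧ W m (PadicInt.toZModPow m x) ≤ s
    · simp [h]
    · simp [h]
  have hms : MeasurableSet {x : ℤ_[3] | x ∈ U3 ∧ Wp m x ≤ s} := by
    rw [hset]
    exact h1 (measurableSet_singleton 1)
  refine ⟨hms, ?_⟩
  have hind : (fun x : ℤ_[3] => (fun z : ZMod (3 ^ m) =>
      if IsUnit z ∧ W m z ≤ s then (1 : ℝ≥0∞) else 0) (PadicInt.toZModPow m x)) =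
      Set.indicator {x : ℤ_[3] | x ∈ U3 ∧ Wp m x ≤ s} 1 := by
    funext x
    by_cases h : IsUnit (PadicInt.toZModPow m x) ∧ W m (PadicInt.toZModPow m x) ≤ s
    · rw [Set.indicator_of_mem]
      · simp [h]
      · exact ⟨(huts m x hm).2 h.1, h.2⟩
    · rw [Set.indicator_of_notMem]
      · simp [h]
      · intro hx
        exact h ⟨(huts m x hm).1 hx.1, hx.2⟩
  rw [hind, lintegral_indicator_one hms] at h2
  rw [h2]
  unfold pr
  rw [ENNReal.toReal_div]
  have h3 : (∑ y : ZMod (3 ^ m), if IsUnit y ∧ W m y ≤ s then (1 : ℝ≥0∞) else 0)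
      = (((Finset.univ.filter (fun z : ZMod (3 ^ m) => IsUnit z ∧ W m z ≤ s)).card : ℕ) :
        ℝ≥0∞) := by
    rw [Finset.sum_boole]
  rw [h3, ENNReal.toReal_natCast, ENNReal.toReal_pow]
  norm_num

/-- a sequence of sets which almost every point leaves -/
theorem dis_zero [IsFiniteMeasure μ3] (B : ℕ → Set ℤ_[3]) (hB : ∀ m, MeasurableSet (B (m + 1)))
    (h : ∀ᵐ x ∂μ3, ∀ᶠ m in atTop, x ∉ B m) (ε : ℝ) (hε : 0 < ε) :
    ∃ m0 : ℕ, ∀ m : ℕ, m0 ≤ m → (μ3 (B m)).toReal ≤ ε := by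
  have h1 : Tendsto (fun m => μ3 (B (m + 1))) atTop (𝓝 (μ3 (∅ : Set ℤ_[3]))) := by
    apply tendsto_measure_of_ae_tendsto_indicator_of_isFiniteMeasure atTop MeasurableSet.empty hB
    filter_upwards [h] with x hx
    have := (tendsto_add_atTop_nat 1).eventually hx
    filter_upwards [this] with m hm
    simp [hm]
  rw [measure_empty] at h1
  have h2 : Tendsto (fun m => (μ3 (B (m + 1))).toReal) atTop (𝓝 0) := by
    have h0 : Tendsto ENNReal.toReal (𝓝 (0 : ℝ≥0∞)) (𝓝 0) := by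
      simpa using ENNReal.tendsto_toReal (a := 0) (by simp)
    exact h0.comp h1
  have h3 := (h2.eventually (gt_mem_nhds hε))
  obtain ⟨m0, hm0⟩ := eventually_atTop.1 h3
  refine ⟨m0 + 1, fun m hm => ?_⟩
  obtain ⟨k, rfl⟩ : ∃ k, m = k + 1 := ⟨m - 1, by omega⟩
  exact (hm0 k (by omega)).le

/-- DIS -/
theorem dis (mea : MeaStmt) (uts : UtsStmt) : DisStmt := by
  classical
  intro w hw hlim s ε hε
  have hprob : IsProbabilityMeasure μ3 := mea.1
  have hU : MeasurableSet U3 := uts.1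
  have hle : MeasurableSet {x : ℤ_[3] | x ∈ U3 ∧ w x ≤ s} :=
    hU.inter (measurableSet_le hw measurable_const)
  have hlt : MeasurableSet {x : ℤ_[3] | x ∈ U3 ∧ w x < s} :=
    hU.inter (measurableSet_lt hw measurable_const)
  obtain ⟨m1, hm1⟩ := dis_zero
    (fun m => {x : ℤ_[3] | x ∈ U3 ∧ Wp m x ≤ s} \ {x : ℤ_[3] | x ∈ U3 ∧ w x ≤ s})
    (fun m => (dis_level mea uts (m + 1) (by omega) s).1.diff hle)
    (by
      filter_upwards [hlim] with x hx
      by_cases hxs : s < w x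
      · have := hx.eventually (lt_mem_nhds hxs)
        filter_upwards [this] with m hm h
        exact absurd h.1.2 (not_le.2 hm)
      · refine Eventually.of_forall fun m h => ?_
        exact h.2 ⟨h.1.1, not_lt.1 hxs⟩) ε hε
  obtain ⟨m2, hm2⟩ := dis_zero
    (fun m => {x : ℤ_[3] | x ∈ U3 ∧ w x < s} \ {x : ℤ_[3] | x ∈ U3 ∧ Wp m x ≤ s})
    (fun m => hlt.diff (dis_level mea uts (m + 1) (by omega) s).1)
    (by
      filter_upwards [hlim] with x hx
      by_cases hxs : w x < s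
      · have := hx.eventually (gt_mem_nhds hxs)
        filter_upwards [this] with m hm h
        exact h.2 ⟨h.1.1, le_of_lt hm⟩
      · refine Eventually.of_forall fun m h => ?_
        exact hxs h.1.2) ε hε
  refine ⟨m1 + m2 + 1, fun m hm => ?_⟩
  obtain ⟨ha, hb⟩ := dis_level mea uts m (by omega) s
  have h1 := hm1 m (by omega)
  have h2 := hm2 m (by omega)
  rw [← hb]
  constructor
  · have h3 : μ3 {x : ℤ_[3] | x ∈ U3 ∧ Wp m x ≤ s} ≤ μ3 {x : ℤ_[3] | x ∈ U3 ∧ w x ≤ s} +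
        μ3 ({x : ℤ_[3] | x ∈ U3 ∧ Wp m x ≤ s} \ {x : ℤ_[3] | x ∈ U3 ∧ w x ≤ s}) := by
      refine le_trans (measure_mono ?_) (measure_union_le _ _)
      intro x hx
      by_cases h : x ∈ {x : ℤ_[3] | x ∈ U3 ∧ w x ≤ s}
      · exact Or.inl h
      · exact Or.inr ⟨hx, h⟩
    have h4 := ENNReal.toReal_mono (by finiteness) h3
    rw [ENNReal.toReal_add (measure_ne_top _ _) (measure_ne_top _ _)] at h4
    linarith
  · have h3 : μ3 {x : ℤ_[3] | x ∈ U3 ∧ w x < s} ≤ μ3 {x : ℤ_[3] | x ∈ U3 ∧ Wp m x ≤ s} +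
        μ3 ({x : ℤ_[3] | x ∈ U3 ∧ w x < s} \ {x : ℤ_[3] | x ∈ U3 ∧ Wp m x ≤ s}) := by
      refine le_trans (measure_mono ?_) (measure_union_le _ _)
      intro x hx
      by_cases h : x ∈ {x : ℤ_[3] | x ∈ U3 ∧ Wp m x ≤ s}
      · exact Or.inl h
      · exact Or.inr ⟨hx, h⟩
    have h4 := ENNReal.toReal_mono (by finiteness) h3
    rw [ENNReal.toReal_add (measure_ne_top _ _) (measure_ne_top _ _)] at h4
    linarith

end Pool.Agent.WR4.H95
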